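import Pool.Agent.Helper11.M3.GoalsA
import Pool.Agent.Helper11.M3.BLG
import Pool.Agent.Helper77.PPS.Asm

/-!
# Packet M3-A_BL3: the field `bl₃` of `Hyp₃`
-/

set_option autoImplicit false

namespace Pool.Agent.Helper59.M3

open NumberField Polynomial Module IsDedekindDomain
open Pool.Agent.Helper51.RP Pool.Agent.Helper42.RD Pool.Agent.Helper42.PP Pool.Agent.Helper42.PP1
open Pool.Agent.Helper42.PB Pool.Agent.Helper76.PP
open Pool.Agent.Helper11.M3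

open Classical in
theorem a_bl3 (hBLG : A_BLG) : A_BL3 := by
  intro p _ K M K₁ M₁ _ _ _ _ _ _ _ _ _ _ _ _ _ _ ε δ P _ hs B hN n E V s0 aτ hV τ hτ ψ₁ hψ₁ Ka
    hche
  obtain ⟨Xd, hC, hval⟩ := hBLG p K M K₁ M₁ ε δ P hs B hN n E V s0 aτ hV
    (Algebra.trace (ZMod p) (AdjoinRoot P)) ψ₁ hψ₁
  obtain ⟨K₀, hK₀, hb⟩ := blP (sysB B E V s0 aτ) M₁ (Pool.Agent.Helper77.PPS.a1_unb M₁) Ka
    (Fintype.card (ZMod p)ˣ) hche (fun b₀ ↦ Pool.Agent.Helper77.PPS.fib_bound B b₀) (ZMod p)ˣ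
    (fun q : B.LP ↦ q.1.2) (modu p M₁ B.S) (finrank K M₁)
  refine ⟨K₀, hK₀, fun K' hK' ↦ ?_⟩
  intro i j t s c y α β Y hi hj hij ht hs' hcy hLk hY hα hβ
  have h1 := hb (fun q ↦ q.1.1.asIdeal.map (algebraMap (𝓞 K) (𝓞 M₁))) (fun q ↦ B.W q.1.1)
    {q | q.1.1 ∈ V} {q | q.1.1 ∈ V} (fun q e ↦ Xd q t s c y e)
    (fun q q₁ ↦ psK (Algebra.trace (ZMod p) (AdjoinRoot P)) ψ₁
      (s * (c * (sysB B E V s0 aτ).a q q₁ +
            t * algebraMap (ZMod p) (AdjoinRoot P) ((sysB B E V s0 aτ).kap q q₁)) +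
          y * (t * (sysB B E V s0 aτ).a q₁ q +
            c * algebraMap (ZMod p) (AdjoinRoot P) ((sysB B E V s0 aτ).kap q₁ q))))
    (fun e ↦ hC (fun _ ↦ t) (fun _ ↦ s) (fun _ ↦ c) (fun _ ↦ y) e _ _
      (fun q hq ↦ hq) (fun q hq ↦ hq) (fun q _ ↦ hτ _ _ _ _ hLk))
    (fun q hq q₁ hq₁ hne ↦ hval t s c y q q₁ hq hq₁ hne)
    i j α β Y hi hj (Or.inl hij) hY hα hβ
  have hi' : (1 : ℝ) ≤ i := by exact_mod_cast hi
  have hm := Pool.Agent.Helper77.PPS.mono_bound K₀ K' i j (min i j)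
    (Real.exp (-((2 : ℝ) ^ (i + j) / (2 * Y)))) ((i : ℝ) + j) hK₀ hK' (Real.exp_pos _).le
    (by linarith [Nat.cast_nonneg (α := ℝ) j])
  rw [Nat.cast_min] at hm
  exact h1.trans hm

end Pool.Agent.Helper59.M3
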