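import Pool.Agent.Helper11.M3.Goals4b
import Pool.Agent.Helper59.PP.CSM2

/-!
# Packet M3-Q_SMA: the sum of the bounds of `Q_SML`
-/

set_option autoImplicit false

namespace Pool.Agent.Helper59.M3

open Finset Pool.Agent.Helper17.PP Pool.Agent.Helper11.M3 Pool.Agent.Helper59.PP

/-- the statement with `ti B L` in the place of `2 * ti A L` -/
theorem q_sma_aux (K K' B : ℕ) (hK : 1 ≤ K) : ∀ A₅ : ℕ, 2 * K * (K' + 1) ≤ A₅ → ∀ ε : ℝ, 0 < ε →
    ∃ L₀ : ℕ, ∀ L, L₀ ≤ L → ∀ J : ℕ,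
    ∑ j ∈ Ico (sl A₅ L) J, ((ti B L : ℝ) + 2) ^ K' / j * min 1 (2 ^ (L + 1) / 2 ^ j) *
      ((max 1 (min j (L - (j + 1 + ti B L))) : ℕ) : ℝ) ^ (-(1 / K : ℝ)) ≤ ε := by
  intro A₅ hA₅ ε hε
  have hK0 : (0 : ℝ) < K := by exact_mod_cast hK
  have hK1 : (1 : ℝ) ≤ K := by exact_mod_cast hK
  obtain ⟨δ, hδ⟩ : ∃ δ : ℝ, δ = 1 / K := ⟨_, rfl⟩
  have hδ0 : 0 < δ := by rw [hδ]; positivity
  have hδ1 : δ ≤ 1 := by rw [hδ, div_le_one hK0]; exact hK1
  have hδK : δ * K = 1 := by rw [hδ]; field_simp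
  rw [← hδ]
  obtain ⟨η, hη⟩ : ∃ η : ℝ, η = δ / 8 := ⟨_, rfl⟩
  have hη0 : 0 < η := by rw [hη]; positivity
  obtain ⟨C, hC1, hC⟩ := a_le B K' hη0
  obtain ⟨C₁, hC₁1, hC₁⟩ := ti_le B hη0
  -- the constants
  have hsγ : Summable fun i : ℕ => (i : ℝ) ^ (-(1 + δ / 2)) :=
    Real.summable_nat_rpow.2 (by linarith)
  obtain ⟨Z, hZ⟩ : ∃ Z : ℝ, Z = ∑' i : ℕ, (i : ℝ) ^ (-(1 + δ / 2)) := ⟨_, rfl⟩
  have hZ0 : 0 ≤ Z := by
    rw [hZ]; exact tsum_nonneg fun i => Real.rpow_nonneg (by positivity) _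
  obtain ⟨C₂, hC₂⟩ : ∃ C₂ : ℝ, C₂ = C * (8 ^ (δ / 2) * (2 * Z + C₁ + 1)) + 2 * C := ⟨_, rfl⟩
  have ht : ∀ c : ℝ, 0 < c → Filter.Tendsto (fun L : ℕ => ((L : ℝ) + 1) ^ (-c)) Filter.atTop
      (nhds 0) := by
    intro c hc
    have h1 : Filter.Tendsto (fun L : ℕ => (L : ℝ) + 1) Filter.atTop Filter.atTop :=
      Filter.tendsto_atTop_add_const_right _ _ tendsto_natCast_atTop_atTop
    exact (tendsto_rpow_neg_atTop hc).comp h1
  have hL1 : ∀ᶠ L : ℕ in Filter.atTop, C₂ * ((L : ℝ) + 1) ^ (-(δ / 4)) ≤ ε / 2 := by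
    have h1 := (ht (δ / 4) (by positivity)).const_mul C₂
    rw [mul_zero] at h1
    exact (h1.eventually (gt_mem_nhds (show (0 : ℝ) < ε / 2 by positivity))).mono
      fun L h => le_of_lt h
  have hL2 : ∀ᶠ L : ℕ in Filter.atTop, C₁ * ((L : ℝ) + 1) ^ (-(1 - η)) ≤ 3 / 4 := by
    have h1 := (ht (1 - η) (by rw [hη]; linarith)).const_mul C₁
    rw [mul_zero] at h1
    exact (h1.eventually (gt_mem_nhds (show (0 : ℝ) < 3 / 4 by norm_num))).mono
      fun L h => le_of_lt h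
  obtain ⟨N, hN⟩ := exists_nat_ge (2 * (((B : ℝ) + 2) ^ K' * Z) / ε)
  obtain ⟨L₀, hL₀⟩ := Filter.eventually_atTop.1 (hL1.and (hL2.and (Filter.eventually_ge_atTop 1)))
  refine ⟨max L₀ (2 ^ (N + 1)), fun L hL J => ?_⟩
  obtain ⟨hA, hB, hL1'⟩ := hL₀ L ((le_max_left _ _).trans hL)
  -- the logarithm
  obtain ⟨l, hl⟩ : ∃ l : ℕ, l = Nat.log 2 L := ⟨_, rfl⟩
  have hlN : N + 1 ≤ l := by
    rw [hl]
    exact Nat.le_log_of_pow_le (by norm_num) ((le_max_right _ _).trans hL)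
  have hl1 : 1 ≤ l := by omega
  have hl1r : (1 : ℝ) ≤ l := by exact_mod_cast hl1
  have hl0r : (0 : ℝ) < l := by linarith
  obtain ⟨s, hs⟩ : ∃ s : ℕ, s = sl A₅ L := ⟨_, rfl⟩
  rw [← hs]
  have hsl : s = l ^ A₅ := by rw [hs, hl]; rfl
  have hs1 : 1 ≤ s := by rw [hsl]; exact Nat.one_le_pow _ _ hl1
  have hs1r : (1 : ℝ) ≤ s := by exact_mod_cast hs1
  have hs0r : (0 : ℝ) < s := by linarith
  -- abbreviations
  obtain ⟨X, hX⟩ : ∃ X : ℝ, X = (L : ℝ) + 1 := ⟨_, rfl⟩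
  rw [← hX] at hA hB
  have hX0 : 0 < X := by rw [hX]; positivity
  have hX1 : 1 ≤ X := by rw [hX]; linarith [show (0 : ℝ) ≤ L by positivity]
  obtain ⟨T, hT⟩ : ∃ T : ℕ, T = ti B L := ⟨_, rfl⟩
  rw [← hT]
  have hLX : (L : ℝ) ^ η ≤ X ^ η :=
    Real.rpow_le_rpow (by positivity) (by rw [hX]; linarith) hη0.le
  have hTle : (T : ℝ) + 2 ≤ C₁ * X ^ η := by
    have := hC₁ L (by omega)
    rw [← hT] at this
    exact this.trans (mul_le_mul_of_nonneg_left hLX (by linarith))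
  obtain ⟨a, ha⟩ : ∃ a : ℝ, a = ((T : ℝ) + 2) ^ K' := ⟨_, rfl⟩
  have ha0 : 0 ≤ a := by rw [ha]; positivity
  have haC : a ≤ C * X ^ η := by
    have := hC L (by omega)
    rw [← hT, ← ha] at this
    exact this.trans (mul_le_mul_of_nonneg_left hLX (by linarith))
  have hal : a ≤ ((B : ℝ) + 2) ^ K' * (l : ℝ) ^ K' := by
    rw [ha, ← mul_pow]
    refine pow_le_pow_left₀ (by positivity) ?_ _
    have h5 : (T : ℝ) = B * (l : ℝ) := by
      rw [hT, hl]; unfold ti; push_cast; ring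
    rw [h5]
    nlinarith
  rw [← ha]
  have hXη : X ^ (-(1 - η)) * X = X ^ η := by
    nth_rewrite 2 [← Real.rpow_one X]
    rw [← Real.rpow_add hX0]; congr 1; ring
  have hT34 : (T : ℝ) + 2 ≤ 3 / 4 * X := by
    refine hTle.trans ?_
    rw [← hXη, ← mul_assoc]
    exact mul_le_mul_of_nonneg_right hB hX0.le
  obtain ⟨M, hM⟩ : ∃ M : ℕ, M = L - 1 - T := ⟨_, rfl⟩
  have hTL : T + 1 ≤ L := by
    have h1 : (T : ℝ) + 2 ≤ L + 1 := by
      refine hT34.trans ?_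
      rw [hX]; linarith [show (0 : ℝ) ≤ L by positivity]
    have h2 : T + 2 ≤ L + 1 := by exact_mod_cast h1
    omega
  have hMr : (M : ℝ) = X - (T + 2) := by
    have h1 : M + (T + 2) = L + 1 := by omega
    have h2 : ((M + (T + 2) : ℕ) : ℝ) = ((L + 1 : ℕ) : ℝ) := by rw [h1]
    push_cast at h2
    rw [hX]; linarith
  have hM4 : X / 4 ≤ M := by rw [hMr]; linarith
  have hM0 : (0 : ℝ) < M := lt_of_lt_of_le (by positivity) hM4
  -- the pointwise bound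
  have hterm : ∀ j ∈ Ico s J, a / j * min 1 (2 ^ (L + 1) / 2 ^ j) *
      ((max 1 (min j (L - (j + 1 + T))) : ℕ) : ℝ) ^ (-δ) ≤
      (a * (s : ℝ) ^ (-(δ / 2))) * (j : ℝ) ^ (-(1 + δ / 2)) +
        a / j * min 1 (2 ^ (L + 1) / 2 ^ j) *
        ((max 1 (L - (j + 1 + T)) : ℕ) : ℝ) ^ (-δ) := by
    intro j hj
    have hsj : s ≤ j := (Finset.mem_Ico.1 hj).1
    have hj1 : 1 ≤ j := hs1.trans hsj
    have hj1r : (1 : ℝ) ≤ j := by exact_mod_cast hj1
    have hj0r : (0 : ℝ) < j := by linarith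
    have hsjr : (s : ℝ) ≤ j := by exact_mod_cast hsj
    obtain ⟨n, hn⟩ : ∃ n : ℕ, n = L - (j + 1 + T) := ⟨_, rfl⟩
    rw [← hn]
    obtain ⟨w, hw⟩ : ∃ w : ℝ, w = min 1 (2 ^ (L + 1) / 2 ^ j) := ⟨_, rfl⟩
    rw [← hw]
    have hw0 : 0 ≤ w := by rw [hw]; positivity
    have hw1 : w ≤ 1 := by rw [hw]; exact min_le_left _ _
    have h1 : ((max 1 (min j n) : ℕ) : ℝ) ^ (-δ) ≤ (j : ℝ) ^ (-δ) +
        ((max 1 n : ℕ) : ℝ) ^ (-δ) := by
      have p1 : (0 : ℝ) ≤ (j : ℝ) ^ (-δ) := Real.rpow_nonneg hj0r.le _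
      have p2 : (0 : ℝ) ≤ ((max 1 n : ℕ) : ℝ) ^ (-δ) := Real.rpow_nonneg (by positivity) _
      rcases le_total j n with h | h
      · rw [min_eq_left h, max_eq_right hj1]; linarith
      · rw [min_eq_right h]; linarith
    have h2 : a / j * w * ((max 1 (min j n) : ℕ) : ℝ) ^ (-δ) ≤
        a / j * w * ((j : ℝ) ^ (-δ) + ((max 1 n : ℕ) : ℝ) ^ (-δ)) :=
      mul_le_mul_of_nonneg_left h1 (by positivity)
    refine h2.trans ?_
    rw [mul_add]
    refine add_le_add ?_ le_rfl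
    have h3 : a / j * w ≤ a / j := by
      calc a / j * w ≤ a / j * 1 := mul_le_mul_of_nonneg_left hw1 (by positivity)
        _ = a / j := mul_one _
    have p3 : (0 : ℝ) ≤ (j : ℝ) ^ (-δ) := Real.rpow_nonneg hj0r.le _
    have e1 : (j : ℝ) ^ (-δ) = (j : ℝ) ^ (-(δ / 2)) * (j : ℝ) ^ (-(δ / 2)) := by
      rw [← Real.rpow_add hj0r]; congr 1; ring
    have e2 : (j : ℝ) ^ (-(δ / 2)) ≤ (s : ℝ) ^ (-(δ / 2)) :=
      Real.rpow_le_rpow_of_nonpos hs0r hsjr (by linarith)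
    have e3 : (j : ℝ)⁻¹ * (j : ℝ) ^ (-(δ / 2)) = (j : ℝ) ^ (-(1 + δ / 2)) := by
      rw [← Real.rpow_neg_one, ← Real.rpow_add hj0r]; congr 1; ring
    have p4 : (0 : ℝ) ≤ (j : ℝ) ^ (-(δ / 2)) := Real.rpow_nonneg hj0r.le _
    calc a / j * w * (j : ℝ) ^ (-δ) ≤ a / j * (j : ℝ) ^ (-δ) := mul_le_mul_of_nonneg_right h3 p3
      _ = a * (j : ℝ)⁻¹ * ((j : ℝ) ^ (-(δ / 2)) * (j : ℝ) ^ (-(δ / 2))) := by
        rw [e1, div_eq_mul_inv]
      _ ≤ a * (j : ℝ)⁻¹ * ((s : ℝ) ^ (-(δ / 2)) * (j : ℝ) ^ (-(δ / 2))) :=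
        mul_le_mul_of_nonneg_left (mul_le_mul_of_nonneg_right e2 p4) (by positivity)
      _ = (a * (s : ℝ) ^ (-(δ / 2))) * ((j : ℝ)⁻¹ * (j : ℝ) ^ (-(δ / 2))) := by ring
      _ = _ := by rw [e3]
  refine (Finset.sum_le_sum hterm).trans ?_
  rw [Finset.sum_add_distrib]
  have part1 : ∑ j ∈ Ico s J, (a * (s : ℝ) ^ (-(δ / 2))) * (j : ℝ) ^ (-(1 + δ / 2)) ≤ ε / 2 := by
    rw [← Finset.mul_sum]
    have h1 : ∑ j ∈ Ico s J, (j : ℝ) ^ (-(1 + δ / 2)) ≤ Z := by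
      rw [hZ]
      exact sum_comp_le hsγ (fun i => Real.rpow_nonneg (by positivity) _) _ (fun j => j)
        (fun a _ b _ h => h)
    have h2 : (s : ℝ) ^ (-(δ / 2)) ≤ ((l : ℝ) ^ (K' + 1))⁻¹ := by
      have e1 : (s : ℝ) = (l : ℝ) ^ (A₅ : ℝ) := by
        rw [hsl, Real.rpow_natCast]; push_cast; rfl
      rw [e1, ← Real.rpow_mul hl0r.le, ← Real.rpow_natCast, ← Real.rpow_neg hl0r.le]
      refine Real.rpow_le_rpow_of_exponent_le hl1r ?_
      have h3 : ((2 * K * (K' + 1) : ℕ) : ℝ) ≤ A₅ := by exact_mod_cast hA₅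
      push_cast at h3 ⊢
      have h4 : δ / 2 * (2 * K * (K' + 1)) = (K' : ℝ) + 1 := by
        calc δ / 2 * (2 * K * (K' + 1)) = δ * K * ((K' : ℝ) + 1) := by ring
          _ = _ := by rw [hδK, one_mul]
      have h5 : δ / 2 * (2 * K * ((K' : ℝ) + 1)) ≤ δ / 2 * A₅ :=
        mul_le_mul_of_nonneg_left h3 (by positivity)
      rw [h4] at h5
      linarith
    have h3 : a * (s : ℝ) ^ (-(δ / 2)) ≤ ((B : ℝ) + 2) ^ K' / l := by
      calc a * (s : ℝ) ^ (-(δ / 2)) ≤ (((B : ℝ) + 2) ^ K' * (l : ℝ) ^ K') *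
            ((l : ℝ) ^ (K' + 1))⁻¹ :=
            mul_le_mul hal h2 (Real.rpow_nonneg hs0r.le _) (by positivity)
        _ = _ := by
          rw [pow_succ]
          field_simp
    have h4 : ((B : ℝ) + 2) ^ K' / l * Z ≤ ε / 2 := by
      rw [div_mul_eq_mul_div, div_le_iff₀ hl0r]
      have h5 : (N : ℝ) ≤ l := by exact_mod_cast (by omega : N ≤ l)
      rw [div_le_iff₀ hε] at hN
      nlinarith
    exact (mul_le_mul h3 h1 (Finset.sum_nonneg fun i _ => Real.rpow_nonneg (by positivity) _)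
      (by positivity)).trans h4
  have hfin : ∑ j ∈ Ico s J, a / j * min 1 (2 ^ (L + 1) / 2 ^ j) *
        ((max 1 (L - (j + 1 + T)) : ℕ) : ℝ) ^ (-δ) ≤ ε / 2 := by
    refine le_trans ?_ hA
    rw [← Finset.sum_filter_add_sum_filter_not (Ico s J) (fun j => j ≤ L + 1)]
    -- the part up to `L + 1`
    have q1 : ∑ j ∈ (Ico s J).filter (fun j => j ≤ L + 1),
        a / j * min 1 (2 ^ (L + 1) / 2 ^ j) *
        ((max 1 (L - (j + 1 + T)) : ℕ) : ℝ) ^ (-δ) ≤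
        C * (8 ^ (δ / 2) * (2 * Z + C₁ + 1)) * X ^ (-(δ / 4)) := by
      have r1 : ∀ j ∈ (Ico s J).filter (fun j => j ≤ L + 1),
          a / j * min 1 (2 ^ (L + 1) / 2 ^ j) *
          ((max 1 (L - (j + 1 + T)) : ℕ) : ℝ) ^ (-δ) ≤
          (C * X ^ η * ((M : ℝ) / 2) ^ (-(δ / 2))) * ((j : ℝ) ^ (-(1 + δ / 2)) +
            ((max 1 (M - j) : ℕ) : ℝ) ^ (-(1 + δ / 2))) := by
        intro j hj
        rw [Finset.mem_filter] at hj
        have hj1 : 1 ≤ j := hs1.trans (Finset.mem_Ico.1 hj.1).1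
        have hjL := hj.2
        have hj1r : (1 : ℝ) ≤ j := by exact_mod_cast hj1
        have hj0r : (0 : ℝ) < j := by linarith
        have hw1 : min 1 ((2 : ℝ) ^ (L + 1) / 2 ^ j) ≤ 1 := min_le_left _ _
        have hw0 : 0 ≤ min 1 ((2 : ℝ) ^ (L + 1) / 2 ^ j) := by positivity
        have hn : max 1 (M - j) ≤ max 1 (L - (j + 1 + T)) :=
          max_le_max le_rfl (by omega)
        have hy1 : (1 : ℝ) ≤ ((max 1 (M - j) : ℕ) : ℝ) := by exact_mod_cast le_max_left _ _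
        have hnr : ((max 1 (L - (j + 1 + T)) : ℕ) : ℝ) ^ (-δ) ≤
            ((max 1 (M - j) : ℕ) : ℝ) ^ (-δ) :=
          Real.rpow_le_rpow_of_nonpos (by linarith) (by exact_mod_cast hn) (by linarith)
        have hxy : (M : ℝ) ≤ (j : ℝ) + ((max 1 (M - j) : ℕ) : ℝ) := by
          have : M ≤ j + max 1 (M - j) := by
            have := le_max_right 1 (M - j)
            omega
          exact_mod_cast this
        have hsp := split_xy hj1r hy1 hM0 hxy hδ0 hδ1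
        have hp : (0 : ℝ) ≤ ((max 1 (L - (j + 1 + T)) : ℕ) : ℝ) ^ (-δ) :=
          Real.rpow_nonneg (by positivity) _
        calc a / j * min 1 (2 ^ (L + 1) / 2 ^ j) *
              ((max 1 (L - (j + 1 + T)) : ℕ) : ℝ) ^ (-δ)
            ≤ (C * X ^ η) / j * 1 * ((max 1 (M - j) : ℕ) : ℝ) ^ (-δ) := by
              refine mul_le_mul (mul_le_mul (div_le_div_of_nonneg_right haC hj0r.le) hw1 hw0
                (by positivity)) hnr hp (by positivity)
          _ = (C * X ^ η) * ((j : ℝ)⁻¹ * ((max 1 (M - j) : ℕ) : ℝ) ^ (-δ)) := by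
              rw [mul_one, div_eq_mul_inv, mul_assoc]
          _ ≤ (C * X ^ η) * (((M : ℝ) / 2) ^ (-(δ / 2)) * ((j : ℝ) ^ (-(1 + δ / 2)) +
                ((max 1 (M - j) : ℕ) : ℝ) ^ (-(1 + δ / 2)))) :=
              mul_le_mul_of_nonneg_left hsp (by positivity)
          _ = _ := by ring
      refine (Finset.sum_le_sum r1).trans ?_
      rw [← Finset.mul_sum, Finset.sum_add_distrib]
      have r2 : ∑ j ∈ (Ico s J).filter (fun j => j ≤ L + 1), (j : ℝ) ^ (-(1 + δ / 2)) ≤ Z := by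
        rw [hZ]
        exact sum_comp_le hsγ (fun i => Real.rpow_nonneg (by positivity) _) _ (fun j => j)
          (fun a _ b _ h => h)
      have r3 : ∑ j ∈ (Ico s J).filter (fun j => j ≤ L + 1),
          ((max 1 (M - j) : ℕ) : ℝ) ^ (-(1 + δ / 2)) ≤ Z + (T + 3) := by
        refine (sum_y (by linarith) M L _ fun j hj => (Finset.mem_filter.1 hj).2).trans ?_
        rw [← hZ]
        refine add_le_add le_rfl ?_
        have : L + 2 - M = T + 3 := by omega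
        rw [this]; push_cast; exact le_rfl
      have r4 : (T : ℝ) + 3 ≤ (C₁ + 1) * X ^ η := by
        have := Real.one_le_rpow hX1 hη0.le
        linarith
      have r5 : Z + (Z + ((T : ℝ) + 3)) ≤ (2 * Z + C₁ + 1) * X ^ η := by
        have := Real.one_le_rpow hX1 hη0.le
        nlinarith
      have r6 : ((M : ℝ) / 2) ^ (-(δ / 2)) ≤ 8 ^ (δ / 2) * X ^ (-(δ / 2)) := by
        have h1 : ((M : ℝ) / 2) ^ (-(δ / 2)) ≤ (X / 8) ^ (-(δ / 2)) :=
          Real.rpow_le_rpow_of_nonpos (by positivity) (by linarith) (by linarith)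
        refine h1.trans (le_of_eq ?_)
        rw [Real.div_rpow hX0.le (by norm_num), Real.rpow_neg (by norm_num : (0 : ℝ) ≤ 8),
          div_inv_eq_mul, mul_comm]
      have hXp : 0 < X ^ η := Real.rpow_pos_of_pos hX0 _
      calc C * X ^ η * ((M : ℝ) / 2) ^ (-(δ / 2)) *
            (∑ j ∈ (Ico s J).filter (fun j => j ≤ L + 1), (j : ℝ) ^ (-(1 + δ / 2)) +
              ∑ j ∈ (Ico s J).filter (fun j => j ≤ L + 1),
                ((max 1 (M - j) : ℕ) : ℝ) ^ (-(1 + δ / 2)))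
          ≤ C * X ^ η * (8 ^ (δ / 2) * X ^ (-(δ / 2))) * ((2 * Z + C₁ + 1) * X ^ η) := by
            refine mul_le_mul (mul_le_mul_of_nonneg_left r6 (by positivity))
              ((add_le_add r2 r3).trans r5) ?_ (by positivity)
            exact add_nonneg (Finset.sum_nonneg fun j _ => Real.rpow_nonneg (by positivity) _)
              (Finset.sum_nonneg fun j _ => Real.rpow_nonneg (by positivity) _)
        _ = C * (8 ^ (δ / 2) * (2 * Z + C₁ + 1)) * (X ^ η * X ^ (-(δ / 2)) * X ^ η) := by ring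
        _ = C * (8 ^ (δ / 2) * (2 * Z + C₁ + 1)) * X ^ (-(δ / 4)) := by
            rw [← Real.rpow_add hX0, ← Real.rpow_add hX0]
            congr 2
            rw [hη]; ring
    -- the part above `L + 1`
    have q2 : ∑ j ∈ (Ico s J).filter (fun j => ¬ j ≤ L + 1),
        a / j * min 1 (2 ^ (L + 1) / 2 ^ j) *
        ((max 1 (L - (j + 1 + T)) : ℕ) : ℝ) ^ (-δ) ≤ 2 * C * X ^ (-(δ / 4)) := by
      have r1 : ∀ j ∈ (Ico s J).filter (fun j => ¬ j ≤ L + 1),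
          a / j * min 1 (2 ^ (L + 1) / 2 ^ j) *
          ((max 1 (L - (j + 1 + T)) : ℕ) : ℝ) ^ (-δ) ≤
          (C * X ^ (-(δ / 4))) * (1 / 2 : ℝ) ^ (j - (L + 1)) := by
        intro j hj
        rw [Finset.mem_filter] at hj
        have hjL : L + 1 < j := by omega
        have hj1 : 1 ≤ j := by omega
        have hj1r : (1 : ℝ) ≤ j := by exact_mod_cast hj1
        have hj0r : (0 : ℝ) < j := by linarith
        have hjX : X ≤ j := by rw [hX]; exact_mod_cast hjL.le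
        have haX : a / j ≤ C * X ^ (-(δ / 4)) := by
          have h1 : a / j ≤ C * X ^ η / X :=
            div_le_div₀ (by positivity) haC hX0 hjX
          have h2 : C * X ^ η / X = C * X ^ (-(1 - η)) := by
            rw [mul_div_assoc]
            congr 1
            rw [div_eq_mul_inv, ← Real.rpow_neg_one, ← Real.rpow_add hX0]
            congr 1; ring
          rw [h2] at h1
          refine h1.trans (mul_le_mul_of_nonneg_left ?_ (by linarith))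
          refine Real.rpow_le_rpow_of_exponent_le hX1 ?_
          rw [hη]; linarith
        have hw : min 1 ((2 : ℝ) ^ (L + 1) / 2 ^ j) ≤ (1 / 2 : ℝ) ^ (j - (L + 1)) := by
          refine (min_le_right _ _).trans (le_of_eq ?_)
          obtain ⟨m, rfl⟩ : ∃ m, j = L + 1 + m := ⟨j - (L + 1), by omega⟩
          rw [Nat.add_sub_cancel_left, one_div, inv_pow]
          field_simp
          ring
        have hw0 : 0 ≤ min 1 ((2 : ℝ) ^ (L + 1) / 2 ^ j) := by positivity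
        have hn1 : ((max 1 (L - (j + 1 + T)) : ℕ) : ℝ) ^ (-δ) ≤ 1 := by
          refine Real.rpow_le_one_of_one_le_of_nonpos ?_ (by linarith)
          exact_mod_cast le_max_left _ _
        have hn0 : 0 ≤ ((max 1 (L - (j + 1 + T)) : ℕ) : ℝ) ^ (-δ) :=
          Real.rpow_nonneg (by positivity) _
        have hXp : 0 < X ^ (-(δ / 4)) := Real.rpow_pos_of_pos hX0 _
        calc a / j * min 1 (2 ^ (L + 1) / 2 ^ j) *
              ((max 1 (L - (j + 1 + T)) : ℕ) : ℝ) ^ (-δ)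
            ≤ (C * X ^ (-(δ / 4))) * (1 / 2 : ℝ) ^ (j - (L + 1)) * 1 :=
              mul_le_mul (mul_le_mul haX hw hw0 (by positivity)) hn1 hn0 (by positivity)
          _ = _ := mul_one _
      refine (Finset.sum_le_sum r1).trans ?_
      rw [← Finset.mul_sum]
      have hg : ∑ j ∈ (Ico s J).filter (fun j => ¬ j ≤ L + 1), (1 / 2 : ℝ) ^ (j - (L + 1)) ≤
          ∑' i : ℕ, (1 / 2 : ℝ) ^ i := by
        refine sum_comp_le summable_geometric_two (fun i => by positivity) _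
          (fun j => j - (L + 1)) ?_
        intro a ha b hb hab
        have h2 := (Finset.mem_filter.1 (Finset.mem_coe.1 ha)).2
        have h3 := (Finset.mem_filter.1 (Finset.mem_coe.1 hb)).2
        have h4 : a - (L + 1) = b - (L + 1) := hab
        omega
      rw [tsum_geometric_two] at hg
      have hXp : 0 < X ^ (-(δ / 4)) := Real.rpow_pos_of_pos hX0 _
      calc C * X ^ (-(δ / 4)) * ∑ j ∈ (Ico s J).filter (fun j => ¬ j ≤ L + 1),
            (1 / 2 : ℝ) ^ (j - (L + 1)) ≤ C * X ^ (-(δ / 4)) * 2 :=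
            mul_le_mul_of_nonneg_left hg (by positivity)
        _ = 2 * C * X ^ (-(δ / 4)) := by ring
    refine (add_le_add q1 q2).trans (le_of_eq ?_)
    rw [hC₂]; ring
  linarith [part1, hfin]

theorem q_sma : Q_SMA := by
  intro K K' A hK
  refine ⟨2 * K * (K' + 1), fun A₅ hA₅ ε hε => ?_⟩
  obtain ⟨L₀, hL₀⟩ := q_sma_aux K K' (2 * A) hK A₅ hA₅ ε hε
  refine ⟨L₀, fun L hL J => ?_⟩
  have h := hL₀ L hL J
  have e : ti (2 * A) L = 2 * ti A L := by unfold ti; ring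
  rw [e] at h
  push_cast at h ⊢
  exact h

end Pool.Agent.Helper59.M3
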