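import Pool.Agent.Helper11.M3.Goals4b

/-!
# Packet M3-Q_SMB: comparison of the thresholds
-/

set_option autoImplicit false

namespace Pool.Agent.Helper59.M3

open Finset Pool.Agent.Helper17.PP Pool.Agent.Helper11.M3

lemma pow_le_two_pow_ev (m : ℕ) : ∃ N : ℕ, ∀ l : ℕ, N ≤ l → l ^ m ≤ 2 ^ l := by
  have h := tendsto_pow_const_div_const_pow_of_one_lt m (r := (2 : ℝ)) (by norm_num)
  have h1 : ∀ᶠ l : ℕ in Filter.atTop, (l : ℝ) ^ m / 2 ^ l < 1 :=
    h.eventually (gt_mem_nhds (by norm_num))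
  obtain ⟨N, hN⟩ := Filter.eventually_atTop.1 h1
  refine ⟨N, fun l hl => ?_⟩
  have h2 := hN l hl
  rw [div_lt_one (by positivity)] at h2
  exact_mod_cast h2.le

theorem q_smb : Q_SMB := by
  intro A A₅ j₀ hA₅
  obtain ⟨N, hN⟩ := pow_le_two_pow_ev (2 * A₅ + 2)
  refine ⟨max (2 ^ (N + A + j₀ + 2)) (j₀ ^ 2), fun L hL => ?_⟩
  have hL2 : j₀ ^ 2 ≤ L := (le_max_right _ _).trans hL
  obtain ⟨l, hl⟩ : ∃ l : ℕ, l = Nat.log 2 L := ⟨_, rfl⟩
  have hlN : N + A + j₀ + 2 ≤ l := by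
    rw [hl]
    exact Nat.le_log_of_pow_le (by norm_num) ((le_max_left _ _).trans hL)
  have hL0 : L ≠ 0 := by
    have h1 : 0 < 2 ^ (N + A + j₀ + 2) := by positivity
    have h2 := (le_max_left _ _).trans hL
    omega
  have hlL : 2 ^ l ≤ L := by rw [hl]; exact Nat.pow_log_le_self 2 hL0
  have hpow := (hN l (by omega)).trans hlL
  have hti : ti A L = A * l := by rw [hl]; rfl
  have hsl : sl A₅ L = l ^ A₅ := by rw [hl]; rfl
  rw [hti, hsl]
  have hl1 : 1 ≤ l := by omega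
  have hle2 : l ^ 2 ≤ l ^ A₅ := Nat.pow_le_pow_right hl1 hA₅
  refine ⟨?_, ?_, ?_, ?_⟩
  · refine le_trans ?_ hle2
    have h1 : A * l + j₀ ≤ (A + j₀) * l := by nlinarith
    have h2 : (A + j₀) * l ≤ l * l := Nat.mul_le_mul_right _ (by omega)
    nlinarith
  · rw [Nat.le_sqrt]
    refine le_trans ?_ hpow
    rw [← pow_add]
    exact Nat.pow_le_pow_right hl1 (by omega)
  · have h1 : 1 ≤ l ^ A₅ := Nat.one_le_pow _ _ hl1
    have h2 : 2 * (l ^ A₅ + 1) ≤ l ^ 2 * l ^ A₅ := by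
      have h3 : 4 ≤ l ^ 2 := by nlinarith
      nlinarith
    refine h2.trans (le_trans ?_ hpow)
    rw [← pow_add]
    exact Nat.pow_le_pow_right hl1 (by omega)
  · rw [Nat.le_sqrt]
    nlinarith

end Pool.Agent.Helper59.M3
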