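import Pool.Agent.Helper11.M3.Goals4b

/-!
# Packet M3-U_SM1: the sum of the bounds of `U_LRG`
-/

set_option autoImplicit false

namespace Pool.Agent.Helper59.M3

open Finset Pool.Agent.Helper17.PP Pool.Agent.Helper11.M3

/-- tails of a summable sequence -/
lemma tail_le {f : ℕ → ℝ} (hf : Summable f) {ε : ℝ} (hε : 0 < ε) :
    ∃ j₁ : ℕ, ∀ j₀, j₁ ≤ j₀ → ∀ J : ℕ, ∑ j ∈ Ico j₀ J, f j ≤ ε := by
  obtain ⟨s1, hs1'⟩ := summable_iff_vanishing_norm.1 hf ε hε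
  refine ⟨s1.sup id + 1, fun j₀ hj₀ J => ?_⟩
  have hd : Disjoint (Ico j₀ J) s1 := by
    rw [Finset.disjoint_left]
    intro a ha hb
    have h1 : a ≤ s1.sup id := Finset.le_sup (f := id) hb
    have h2 := (Finset.mem_Ico.1 ha).1
    omega
  exact (le_abs_self _).trans (hs1' _ hd).le

lemma summ_pow_geom (m : ℕ) {r : ℝ} (h0 : 0 < r) (h1 : r < 1) :
    Summable fun j : ℕ => ((j : ℝ) + 2) ^ m * r ^ j := by
  have h := summable_pow_mul_geometric_of_norm_lt_one (R := ℝ) m (r := r)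
    (by rw [Real.norm_eq_abs, abs_of_pos h0]; exact h1)
  have h2 := ((summable_nat_add_iff 2).2 h).mul_left ((r ^ 2)⁻¹)
  refine h2.congr fun j => ?_
  push_cast
  rw [pow_add]
  field_simp

lemma two_rpow_div_natdiv (j E : ℕ) (hE : 1 ≤ E) :
    ((2 ^ (j / E) : ℕ) : ℝ) ≤ (2 : ℝ) ^ ((j : ℝ) / E) := by
  push_cast
  rw [← Real.rpow_natCast]
  exact Real.rpow_le_rpow_of_exponent_le (by norm_num) Nat.cast_div_le

theorem u_sm1 : U_SM1 := by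
  intro K K' ε hK hε
  have hK0 : (0 : ℝ) < K := by exact_mod_cast hK
  obtain ⟨r, hr⟩ : ∃ r : ℝ, r = (2 : ℝ) ^ (-(1 / (2 * K)) : ℝ) := ⟨_, rfl⟩
  have hr0 : 0 < r := by rw [hr]; positivity
  have hr1 : r < 1 := by
    rw [hr]
    exact Real.rpow_lt_one_of_one_lt_of_neg (by norm_num) (by
      have : (0 : ℝ) < 1 / (2 * K) := by positivity
      linarith)
  obtain ⟨j₁, hj₁⟩ := tail_le (summ_pow_geom K' hr0 hr1) hε
  refine ⟨j₁, fun j₀ hj₀ J => le_trans ?_ (hj₁ j₀ hj₀ J)⟩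
  refine Finset.sum_le_sum fun j _ => ?_
  obtain ⟨E, hE⟩ : ∃ E : ℕ, E = 2 * K * (K + 1) := ⟨_, rfl⟩
  rw [← hE]
  have hE1 : 1 ≤ E := by rw [hE]; nlinarith
  obtain ⟨T, hT⟩ : ∃ T : ℕ, T = tb E j := ⟨_, rfl⟩
  rw [← hT]
  have h1 : ∀ i ∈ Ico (j + 1) T,
      ((j : ℝ) + 2) ^ K' * ((i : ℝ) + 1) ^ K * (2 : ℝ) ^ (-(min i j : ℝ) / K) ≤
      ((j : ℝ) + 2) ^ K' * (T : ℝ) ^ K * (2 : ℝ) ^ (-(j : ℝ) / K) := by
    intro i hi
    rw [Finset.mem_Ico] at hi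
    have h2 : (j : ℝ) ≤ i := by exact_mod_cast (by omega : j ≤ i)
    have h3 : (i : ℝ) + 1 ≤ T := by exact_mod_cast hi.2
    rw [min_eq_right h2]
    refine mul_le_mul_of_nonneg_right (mul_le_mul_of_nonneg_left
      (pow_le_pow_left₀ (by positivity) h3 _) (by positivity)) (by positivity)
  refine (Finset.sum_le_sum h1).trans ?_
  rw [Finset.sum_const, nsmul_eq_mul, Nat.card_Ico]
  have h4 : ((T - (j + 1) : ℕ) : ℝ) ≤ T := by exact_mod_cast Nat.sub_le _ _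
  have h5 : (T : ℝ) ^ (K + 1) ≤ (2 : ℝ) ^ ((j : ℝ) / (2 * K)) := by
    have h6 : (T : ℝ) ≤ (2 : ℝ) ^ ((j : ℝ) / E) := by
      rw [hT]; exact two_rpow_div_natdiv j E hE1
    refine (pow_le_pow_left₀ (by positivity) h6 _).trans (le_of_eq ?_)
    rw [← Real.rpow_natCast, ← Real.rpow_mul (by norm_num)]
    congr 1
    rw [hE]; push_cast; field_simp
  have h7 : ((j : ℝ) + 2) ^ K' * r ^ j =
      ((j : ℝ) + 2) ^ K' * ((2 : ℝ) ^ ((j : ℝ) / (2 * K)) * (2 : ℝ) ^ (-(j : ℝ) / K)) := by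
    congr 1
    rw [hr, ← Real.rpow_natCast, ← Real.rpow_mul (by norm_num), ← Real.rpow_add (by norm_num)]
    congr 1
    field_simp
    ring
  rw [h7]
  calc ((T - (j + 1) : ℕ) : ℝ) * (((j : ℝ) + 2) ^ K' * (T : ℝ) ^ K * (2 : ℝ) ^ (-(j : ℝ) / K))
      ≤ (T : ℝ) * (((j : ℝ) + 2) ^ K' * (T : ℝ) ^ K * (2 : ℝ) ^ (-(j : ℝ) / K)) :=
        mul_le_mul_of_nonneg_right h4 (by positivity)
    _ = ((j : ℝ) + 2) ^ K' * ((T : ℝ) ^ (K + 1) * (2 : ℝ) ^ (-(j : ℝ) / K)) := by ring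
    _ ≤ _ := mul_le_mul_of_nonneg_left (mul_le_mul_of_nonneg_right h5 (by positivity))
        (by positivity)

end Pool.Agent.Helper59.M3
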