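import Pool.Agent.Helper59.M3.USM1

/-!
# Packet M3-U_SM2: the sum of the bounds of `U_MNS`
-/

set_option autoImplicit false

namespace Pool.Agent.Helper59.M3

open Finset Pool.Agent.Helper17.PP Pool.Agent.Helper11.M3

theorem u_sm2 : U_SM2 := by
  intro K K' E A ε hK hE hε
  have hK0 : (0 : ℝ) < K := by exact_mod_cast hK
  have hK1 : (1 : ℝ) ≤ K := by exact_mod_cast hK
  have hE0 : (0 : ℝ) < E := by exact_mod_cast hE
  obtain ⟨δ, hδ⟩ : ∃ δ : ℝ, δ = 1 / (2 * K) := ⟨_, rfl⟩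
  have hδ0 : 0 < δ := by rw [hδ]; positivity
  have hδ1 : δ ≤ 1 := by rw [hδ, div_le_one (by positivity)]; linarith
  -- first part
  obtain ⟨r, hr⟩ : ∃ r : ℝ, r = (2 : ℝ) ^ (-(δ / (2 * E)) : ℝ) := ⟨_, rfl⟩
  have hr0 : 0 < r := by rw [hr]; positivity
  have hr1 : r < 1 := by
    rw [hr]
    exact Real.rpow_lt_one_of_one_lt_of_neg (by norm_num) (by
      have : (0 : ℝ) < δ / (2 * E) := by positivity
      linarith)
  obtain ⟨j₁, hj₁⟩ := tail_le (summ_pow_geom (K' + 1) hr0 hr1) (ε := ε / 4) (by positivity)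
  refine ⟨j₁, fun j₀ hj₀ => ?_⟩
  -- second part
  obtain ⟨ρ, hρ⟩ : ∃ ρ : ℝ, ρ = (2 : ℝ) ^ (-δ) := ⟨_, rfl⟩
  have hρ0 : 0 < ρ := by rw [hρ]; positivity
  have hρ1 : ρ < 1 := by
    rw [hρ]
    exact Real.rpow_lt_one_of_one_lt_of_neg (by norm_num) (by linarith)
  have hten : Filter.Tendsto (fun l : ℕ => (2 * 3 ^ (K' + 2) : ℝ) *
      ((l : ℝ) ^ (A * (K' + 2)) * ρ ^ l)) Filter.atTop (nhds 0) := by
    have h := tendsto_pow_const_mul_const_pow_of_abs_lt_one (A * (K' + 2)) (r := ρ)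
      (by rw [abs_of_pos hρ0]; exact hρ1)
    have h2 := h.const_mul (2 * 3 ^ (K' + 2) : ℝ)
    rwa [mul_zero] at h2
  have hev := hten.eventually (gt_mem_nhds (show (0 : ℝ) < ε / 2 by positivity))
  obtain ⟨N, hN⟩ := Filter.eventually_atTop.1 hev
  obtain ⟨N', hN'⟩ : ∃ N' : ℕ, ∀ l : ℕ, N' ≤ l → l ^ (A + 2) ≤ 2 ^ l := by
    have h := tendsto_pow_const_div_const_pow_of_one_lt (A + 2) (r := (2 : ℝ)) (by norm_num)
    have h1 : ∀ᶠ l : ℕ in Filter.atTop, (l : ℝ) ^ (A + 2) / 2 ^ l < 1 :=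
      h.eventually (gt_mem_nhds (by norm_num))
    obtain ⟨N, hN⟩ := Filter.eventually_atTop.1 h1
    refine ⟨N, fun l hl => ?_⟩
    have h2 := hN l hl
    rw [div_lt_one (by positivity)] at h2
    exact_mod_cast h2.le
  refine ⟨2 ^ (N + N' + 2), fun L hL => ?_⟩
  obtain ⟨l, hl⟩ : ∃ l : ℕ, l = Nat.log 2 L := ⟨_, rfl⟩
  have hlN : N + N' + 2 ≤ l := by
    rw [hl]
    exact Nat.le_log_of_pow_le (by norm_num) hL
  have hL0 : L ≠ 0 := by
    have h1 : 0 < 2 ^ (N + N' + 2) := by positivity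
    omega
  have hlL : 2 ^ l ≤ L := by rw [hl]; exact Nat.pow_log_le_self 2 hL0
  have hl1 : 1 ≤ l := by omega
  obtain ⟨s, hs⟩ : ∃ s : ℕ, s = sl A L := ⟨_, rfl⟩
  rw [← hs]
  have hsl : s = l ^ A := by rw [hs, hl]; rfl
  have hs1 : 1 ≤ s := by rw [hsl]; exact Nat.one_le_pow _ _ hl1
  have h4s : 4 * s ≤ L := by
    have h3 : 4 ≤ l ^ 2 := by
      have : 2 ≤ l := by omega
      nlinarith
    calc 4 * s ≤ l ^ 2 * l ^ A := by rw [hsl]; exact Nat.mul_le_mul_right _ h3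
      _ = l ^ (A + 2) := by rw [← pow_add]; congr 1; ring
      _ ≤ 2 ^ l := hN' l (by omega)
      _ ≤ L := hlL
  have hLr : (0 : ℝ) < L := by exact_mod_cast Nat.pos_of_ne_zero hL0
  have h4sr : 4 * (s : ℝ) ≤ L := by exact_mod_cast h4s
  have hs1r : (1 : ℝ) ≤ s := by exact_mod_cast hs1
  rw [← hδ]
  -- the pointwise bound
  have hterm : ∀ j ∈ Ico j₀ s, ((j : ℝ) + 2) ^ K' *
      (((j + 1 : ℕ) : ℝ) / (min (th E j + 1) (L - j - 1) : ℕ)) ^ δ ≤
      2 * (((j : ℝ) + 2) ^ (K' + 1) * r ^ j) +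
        ((s : ℝ) + 2) ^ (K' + 1) * (2 / (L : ℝ)) ^ δ := by
    intro j hj
    have hjs : j < s := (Finset.mem_Ico.1 hj).2
    have hjsr : (j : ℝ) + 1 ≤ s := by exact_mod_cast hjs
    obtain ⟨u, hu⟩ : ∃ u : ℕ, u = th E j + 1 := ⟨_, rfl⟩
    obtain ⟨v, hv⟩ : ∃ v : ℕ, v = L - j - 1 := ⟨_, rfl⟩
    rw [← hu, ← hv]
    have hu1 : 1 ≤ u := by omega
    have hv1 : 1 ≤ v := by omega
    have hu0 : (0 : ℝ) < u := by exact_mod_cast hu1
    have hv0 : (0 : ℝ) < v := by exact_mod_cast hv1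
    have hj0 : (0 : ℝ) ≤ (j : ℝ) := by positivity
    have hj1 : ((j + 1 : ℕ) : ℝ) = (j : ℝ) + 1 := by push_cast; ring
    rw [hj1]
    have hjδ : ((j : ℝ) + 1) ^ δ ≤ (j : ℝ) + 2 := by
      calc ((j : ℝ) + 1) ^ δ ≤ ((j : ℝ) + 1) ^ (1 : ℝ) :=
            Real.rpow_le_rpow_of_exponent_le (by linarith) hδ1
        _ = (j : ℝ) + 1 := Real.rpow_one _
        _ ≤ _ := by linarith
    -- the two bounds
    have b1 : (((j : ℝ) + 1) / u) ^ δ ≤ 2 * (((j : ℝ) + 2) * r ^ j) := by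
      have c1 : (2 : ℝ) ^ ((j : ℝ) / (2 * E) - 1) ≤ u := by
        have c2 : ((j : ℝ) / (2 * E) - 1) ≤ ((j / (2 * E) : ℕ) : ℝ) := by
          have c3 := Nat.lt_div_mul_add (a := j) (b := 2 * E) (by omega)
          have c4 : (j : ℝ) < ((j / (2 * E) : ℕ) : ℝ) * ((2 * E : ℕ) : ℝ) + ((2 * E : ℕ) : ℝ) := by
            exact_mod_cast c3
          push_cast at c4
          rw [sub_le_iff_le_add, div_le_iff₀ (by positivity)]
          linarith
        have c5 : (2 : ℝ) ^ ((j : ℝ) / (2 * E) - 1) ≤ (2 : ℝ) ^ ((j / (2 * E) : ℕ) : ℝ) :=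
          Real.rpow_le_rpow_of_exponent_le (by norm_num) c2
        refine c5.trans ?_
        rw [Real.rpow_natCast]
        have c6 : th E j ≤ u := by omega
        have c7 : ((2 ^ (j / (2 * E)) : ℕ) : ℝ) ≤ (u : ℝ) := by exact_mod_cast c6
        push_cast at c7
        exact c7
      have c8 : (0 : ℝ) < (2 : ℝ) ^ ((j : ℝ) / (2 * E) - 1) := by positivity
      have c9 : (((j : ℝ) + 1) / u) ^ δ ≤ (((j : ℝ) + 1) / (2 : ℝ) ^ ((j : ℝ) / (2 * E) - 1)) ^ δ :=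
        Real.rpow_le_rpow (by positivity) (div_le_div_of_nonneg_left (by positivity) c8 c1) hδ0.le
      refine c9.trans ?_
      rw [Real.div_rpow (by positivity) c8.le, ← Real.rpow_mul (by norm_num), div_eq_mul_inv,
        ← Real.rpow_neg (by norm_num)]
      have c10 : (2 : ℝ) ^ (-(((j : ℝ) / (2 * E) - 1) * δ)) = r ^ j * (2 : ℝ) ^ δ := by
        rw [hr, ← Real.rpow_natCast ((2 : ℝ) ^ (-(δ / (2 * E)))), ← Real.rpow_mul (by norm_num),
          ← Real.rpow_add (by norm_num)]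
        congr 1
        field_simp
        ring
      rw [c10]
      have c11 : (2 : ℝ) ^ δ ≤ 2 := by
        calc (2 : ℝ) ^ δ ≤ (2 : ℝ) ^ (1 : ℝ) :=
              Real.rpow_le_rpow_of_exponent_le (by norm_num) hδ1
          _ = 2 := Real.rpow_one _
      calc ((j : ℝ) + 1) ^ δ * (r ^ j * (2 : ℝ) ^ δ) ≤ ((j : ℝ) + 2) * (r ^ j * 2) :=
            mul_le_mul hjδ (mul_le_mul_of_nonneg_left c11 (by positivity)) (by positivity)
              (by positivity)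
        _ = _ := by ring
    have b2 : (((j : ℝ) + 1) / v) ^ δ ≤ ((s : ℝ) + 2) * (2 / (L : ℝ)) ^ δ := by
      have c1 : (L : ℝ) / 2 ≤ v := by
        have c2 : v + j + 1 = L := by omega
        have c3 : (v : ℝ) + j + 1 = L := by exact_mod_cast c2
        linarith
      have c4 : (((j : ℝ) + 1) / v) ^ δ ≤ (s * (2 / (L : ℝ))) ^ δ := by
        refine Real.rpow_le_rpow (by positivity) ?_ hδ0.le
        rw [div_le_iff₀ hv0]
        calc (j : ℝ) + 1 ≤ s := hjsr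
          _ = s * (2 / (L : ℝ)) * ((L : ℝ) / 2) := by field_simp
          _ ≤ s * (2 / (L : ℝ)) * v := mul_le_mul_of_nonneg_left c1 (by positivity)
      refine c4.trans ?_
      rw [Real.mul_rpow (by positivity) (by positivity)]
      refine mul_le_mul_of_nonneg_right ?_ (by positivity)
      calc (s : ℝ) ^ δ ≤ (s : ℝ) ^ (1 : ℝ) :=
            Real.rpow_le_rpow_of_exponent_le hs1r hδ1
        _ = (s : ℝ) := Real.rpow_one _
        _ ≤ _ := by linarith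
    have b3 : (((j : ℝ) + 1) / (min u v : ℕ)) ^ δ ≤ (((j : ℝ) + 1) / u) ^ δ +
        (((j : ℝ) + 1) / v) ^ δ := by
      have p1 : (0 : ℝ) ≤ (((j : ℝ) + 1) / u) ^ δ := by positivity
      have p2 : (0 : ℝ) ≤ (((j : ℝ) + 1) / v) ^ δ := by positivity
      rcases le_total u v with h | h
      · rw [min_eq_left h]; linarith
      · rw [min_eq_right h]; linarith
    have b4 : ((j : ℝ) + 2) ^ K' ≤ ((s : ℝ) + 2) ^ K' :=
      pow_le_pow_left₀ (by positivity) (by linarith) _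
    calc ((j : ℝ) + 2) ^ K' * (((j : ℝ) + 1) / (min u v : ℕ)) ^ δ
        ≤ ((j : ℝ) + 2) ^ K' * (2 * (((j : ℝ) + 2) * r ^ j) +
          ((s : ℝ) + 2) * (2 / (L : ℝ)) ^ δ) :=
          mul_le_mul_of_nonneg_left (b3.trans (add_le_add b1 b2)) (by positivity)
      _ = 2 * (((j : ℝ) + 2) ^ (K' + 1) * r ^ j) +
          ((j : ℝ) + 2) ^ K' * (((s : ℝ) + 2) * (2 / (L : ℝ)) ^ δ) := by ring
      _ ≤ 2 * (((j : ℝ) + 2) ^ (K' + 1) * r ^ j) +
          ((s : ℝ) + 2) ^ K' * (((s : ℝ) + 2) * (2 / (L : ℝ)) ^ δ) :=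
          add_le_add le_rfl (mul_le_mul_of_nonneg_right b4 (by positivity))
      _ = _ := by ring
  refine (Finset.sum_le_sum hterm).trans ?_
  rw [Finset.sum_add_distrib, ← Finset.mul_sum, Finset.sum_const, nsmul_eq_mul, Nat.card_Ico]
  have hp1 := hj₁ j₀ hj₀ s
  have hp2 : ((s - j₀ : ℕ) : ℝ) * (((s : ℝ) + 2) ^ (K' + 1) * (2 / (L : ℝ)) ^ δ) ≤ ε / 2 := by
    have c1 : ((s - j₀ : ℕ) : ℝ) ≤ (s : ℝ) + 2 := by
      have : ((s - j₀ : ℕ) : ℝ) ≤ s := by exact_mod_cast Nat.sub_le _ _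
      linarith
    have c2 : (2 / (L : ℝ)) ^ δ ≤ 2 * ρ ^ l := by
      have c3 : (2 : ℝ) / L ≤ 2 / 2 ^ l := by
        refine div_le_div_of_nonneg_left (by norm_num) (by positivity) ?_
        exact_mod_cast hlL
      refine (Real.rpow_le_rpow (by positivity) c3 hδ0.le).trans ?_
      rw [Real.div_rpow (by norm_num) (by positivity)]
      have c4 : ρ ^ l = ((((2 : ℝ) ^ l) ^ δ))⁻¹ := by
        rw [hρ, ← Real.rpow_natCast ((2 : ℝ) ^ (-δ)), ← Real.rpow_mul (by norm_num),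
          ← Real.rpow_natCast 2 l, ← Real.rpow_mul (by norm_num), ← Real.rpow_neg (by norm_num)]
        congr 1
        ring
      rw [c4, div_eq_mul_inv]
      refine mul_le_mul_of_nonneg_right ?_ (by positivity)
      calc (2 : ℝ) ^ δ ≤ (2 : ℝ) ^ (1 : ℝ) :=
            Real.rpow_le_rpow_of_exponent_le (by norm_num) hδ1
        _ = 2 := Real.rpow_one _
    have c5 : (s : ℝ) + 2 ≤ 3 * (l : ℝ) ^ A := by
      have : (s : ℝ) = (l : ℝ) ^ A := by rw [hsl]; push_cast; rfl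
      rw [← this]; linarith
    have c6 : ((s : ℝ) + 2) ^ (K' + 2) ≤ 3 ^ (K' + 2) * (l : ℝ) ^ (A * (K' + 2)) := by
      refine (pow_le_pow_left₀ (by positivity) c5 _).trans (le_of_eq ?_)
      rw [mul_pow, pow_mul]
    calc ((s - j₀ : ℕ) : ℝ) * (((s : ℝ) + 2) ^ (K' + 1) * (2 / (L : ℝ)) ^ δ)
        ≤ ((s : ℝ) + 2) * (((s : ℝ) + 2) ^ (K' + 1) * (2 / (L : ℝ)) ^ δ) :=
          mul_le_mul_of_nonneg_right c1 (by positivity)
      _ = ((s : ℝ) + 2) ^ (K' + 2) * (2 / (L : ℝ)) ^ δ := by ring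
      _ ≤ (3 ^ (K' + 2) * (l : ℝ) ^ (A * (K' + 2))) * (2 * ρ ^ l) :=
          mul_le_mul c6 c2 (by positivity) (by positivity)
      _ = (2 * 3 ^ (K' + 2) : ℝ) * ((l : ℝ) ^ (A * (K' + 2)) * ρ ^ l) := by ring
      _ ≤ ε / 2 := (hN l (by omega)).le
  linarith

end Pool.Agent.Helper59.M3
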